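import Mathlib
import Pool.Agent.X212.Spec.Fourier

set_option autoImplicit false

/-!
# Infinite convolutions of probability measures on the line
-/

namespace Pool.Agent.X231.CS

open Finset Filter Topology MeasureTheory ProbabilityTheory
open scoped Real ComplexConjugate ENNReal
open Pool.Agent.X212.Spec (ex ex_add ex_zero ex_int ex_add_int conj_ex norm_ex ex_sub continuous_ex
  F F_zero norm_F_le F_eq_charFun integrable_ex)

/-- The partial convolutions. -/
noncomputable def pc (ρ : ℕ → Measure ℝ) : ℕ → Measure ℝ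
  | 0 => Measure.dirac 0
  | n + 1 => pc ρ n ∗ ρ n

/-- Weak limits. -/
def IsWeakLim (ρ : ℕ → Measure ℝ) (μ : Measure ℝ) : Prop :=
  IsProbabilityMeasure μ ∧ ∀ f : ℝ → ℝ, Continuous f → (∃ C : ℝ, ∀ x, |f x| ≤ C) →
    Tendsto (fun n => ∫ x, f x ∂(ρ n)) atTop (𝓝 (∫ x, f x ∂μ))

theorem pc_prob (ρ : ℕ → Measure ℝ) [∀ i, IsProbabilityMeasure (ρ i)] (n : ℕ) :
    IsProbabilityMeasure (pc ρ n) := by
  induction n with
  | zero =>
    unfold pc
    infer_instance
  | succ n ih =>
    unfold pc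
    infer_instance

theorem F_pc (ρ : ℕ → Measure ℝ) [∀ i, IsProbabilityMeasure (ρ i)] (n : ℕ) (ξ : ℝ) :
    F (pc ρ n) ξ = ∏ i ∈ range n, F (ρ i) ξ := by
  induction n with
  | zero =>
    simp [pc, F]
  | succ n ih =>
    have h := pc_prob ρ n
    rw [prod_range_succ, ← ih]
    show F (pc ρ n ∗ ρ n) ξ = _
    rw [F_eq_charFun, charFun_conv, F_eq_charFun, F_eq_charFun]

theorem F_re_im (μ : Measure ℝ) [IsProbabilityMeasure μ] (ξ : ℝ) :
    F μ ξ = ((∫ x, Real.cos (2 * π * (ξ * x)) ∂μ : ℝ) : ℂ) +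
      ((∫ x, Real.sin (2 * π * (ξ * x)) ∂μ : ℝ) : ℂ) * Complex.I := by
  have h1 := integral_re_add_im (integrable_ex μ ξ)
  unfold F
  rw [← h1]
  have h2 : ∀ x : ℝ, ex x = Complex.cos ((2 * π * x : ℝ) : ℂ) +
      Complex.sin ((2 * π * x : ℝ) : ℂ) * Complex.I := by
    intro x
    unfold ex
    rw [← Complex.exp_mul_I]
    congr 1
    push_cast
    ring
  have h3 : ∀ x : ℝ, (ex x).re = Real.cos (2 * π * x) := by
    intro x
    rw [h2, ← Complex.ofReal_cos, ← Complex.ofReal_sin, Complex.add_re, Complex.ofReal_re,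
      Complex.re_ofReal_mul, Complex.I_re, mul_zero, add_zero]
  have h4 : ∀ x : ℝ, (ex x).im = Real.sin (2 * π * x) := by
    intro x
    rw [h2, ← Complex.ofReal_cos, ← Complex.ofReal_sin, Complex.add_im, Complex.ofReal_im,
      Complex.im_ofReal_mul, Complex.I_im, mul_one, zero_add]
  simp only [RCLike.re_to_complex, RCLike.im_to_complex, h3, h4, RCLike.I_to_complex]
  rfl

theorem tendsto_F {ρ : ℕ → Measure ℝ} {μ : Measure ℝ} (hρ : ∀ n, IsProbabilityMeasure (ρ n))
    (h : IsWeakLim ρ μ) (ξ : ℝ) : Tendsto (fun n => F (ρ n) ξ) atTop (𝓝 (F μ ξ)) := by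
  have hμ := h.1
  have hc : Continuous fun x : ℝ => Real.cos (2 * π * (ξ * x)) := by fun_prop
  have hs : Continuous fun x : ℝ => Real.sin (2 * π * (ξ * x)) := by fun_prop
  have h1 := h.2 _ hc ⟨1, fun x => Real.abs_cos_le_one _⟩
  have h2 := h.2 _ hs ⟨1, fun x => Real.abs_sin_le_one _⟩
  rw [F_re_im]
  have h3 : (fun n => F (ρ n) ξ) = fun n => ((∫ x, Real.cos (2 * π * (ξ * x)) ∂(ρ n) : ℝ) : ℂ) +
      ((∫ x, Real.sin (2 * π * (ξ * x)) ∂(ρ n) : ℝ) : ℂ) * Complex.I := by
    funext n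
    have := hρ n
    rw [F_re_im]
  rw [h3]
  exact ((Complex.continuous_ofReal.tendsto _).comp h1).add
    (((Complex.continuous_ofReal.tendsto _).comp h2).mul_const _)

/-- The infinite convolution exists when the supports are summable. -/
theorem exists_lim (ρ : ℕ → Measure ℝ) [∀ i, IsProbabilityMeasure (ρ i)]
    (hρ : ∀ i, ∀ᵐ x ∂(ρ i), |x| ≤ (1 / 2 : ℝ) ^ i) : ∃ μ, IsWeakLim (pc ρ) μ := by
  have hlaw : ∀ i, (Measure.infinitePi ρ).map (fun ω : ℕ → ℝ => ω i) = ρ i := fun i =>
    Measure.infinitePi_map_eval ρ i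
  have hind : iIndepFun (fun (i : ℕ) (ω : ℕ → ℝ) => ω i) (Measure.infinitePi ρ) :=
    iIndepFun_infinitePi (X := fun _ x => x) (fun _ => measurable_id)
  have hpc : ∀ n, pc ρ n = (Measure.infinitePi ρ).map (fun ω : ℕ → ℝ => ∑ i ∈ range n, ω i) := by
    intro n
    induction n with
    | zero =>
      simp [pc]
    | succ n ih =>
      have h1 := hind.indepFun_sum_range_succ (fun i => measurable_pi_apply i) n
      have h2 := h1.map_add_eq_map_conv_map
        (by
          have : (∑ j ∈ range n, fun ω : ℕ → ℝ => ω j) = fun ω => ∑ j ∈ range n, ω j := by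
            ext ω
            simp
          rw [this]
          fun_prop) (measurable_pi_apply n)
      have h3 : ((∑ j ∈ range n, fun ω : ℕ → ℝ => ω j) + fun ω => ω n) =
          fun ω => ∑ i ∈ range (n + 1), ω i := by
        ext ω
        simp [sum_range_succ]
      have h4 : (∑ j ∈ range n, fun ω : ℕ → ℝ => ω j) = fun ω => ∑ j ∈ range n, ω j := by
        ext ω
        simp
      rw [h3, h4, hlaw, ← ih] at h2
      rw [h2]
      rfl
  have hae : ∀ᵐ ω ∂(Measure.infinitePi ρ), ∀ i, |ω i| ≤ (1 / 2 : ℝ) ^ i := by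
    rw [ae_all_iff]
    intro i
    have h1 := hρ i
    rw [← hlaw i] at h1
    exact ae_of_ae_map (measurable_pi_apply i).aemeasurable h1
  have hten : ∀ᵐ ω ∂(Measure.infinitePi ρ),
      Tendsto (fun n => ∑ i ∈ range n, ω i) atTop (𝓝 (∑' i, ω i)) := by
    filter_upwards [hae] with ω hω
    have hs : Summable ω := by
      apply Summable.of_abs
      exact Summable.of_nonneg_of_le (fun i => abs_nonneg _) hω
        (summable_geometric_of_lt_one (by norm_num) (by norm_num))
    exact hs.hasSum.tendsto_sum_nat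
  have hmeas : AEMeasurable (fun ω : ℕ → ℝ => ∑' i, ω i) (Measure.infinitePi ρ) :=
    aemeasurable_of_tendsto_metrizable_ae atTop (fun n => by fun_prop) hten
  refine ⟨(Measure.infinitePi ρ).map (fun ω : ℕ → ℝ => ∑' i, ω i),
    Measure.isProbabilityMeasure_map hmeas, ?_⟩
  rintro f hf ⟨C, hC⟩
  rw [integral_map hmeas hf.aestronglyMeasurable]
  have h1 : ∀ n, ∫ x, f x ∂(pc ρ n) = ∫ ω, f (∑ i ∈ range n, ω i) ∂(Measure.infinitePi ρ) := by
    intro n
    rw [hpc, integral_map (by fun_prop) hf.aestronglyMeasurable]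
  simp only [h1]
  refine tendsto_integral_of_dominated_convergence (fun _ => C) ?_ (integrable_const _) ?_ ?_
  · intro n
    exact (hf.measurable.comp (by fun_prop)).aestronglyMeasurable
  · intro n
    exact Eventually.of_forall fun ω => by
      rw [Real.norm_eq_abs]
      exact hC _
  · filter_upwards [hten] with ω hω
    exact (hf.tendsto _).comp hω

end Pool.Agent.X231.CS
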