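import Mathlib
import Pool.Agent.X212.Spec.Fourier

set_option autoImplicit false

/-!
# The Fourier transforms of uniform measures on digits
-/

namespace Pool.Agent.X231.CS

open Finset Filter Topology
open scoped Real ComplexConjugate
open Pool.Agent.X212.Spec (ex ex_add ex_zero ex_int ex_add_int conj_ex norm_ex ex_sub continuous_ex)

theorem ex_eq_one (x : ℝ) : ex x = 1 ↔ ∃ n : ℤ, x = n := by
  constructor
  · intro h
    unfold ex at h
    rw [Complex.exp_eq_one_iff] at h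
    obtain ⟨n, hn⟩ := h
    refine ⟨n, ?_⟩
    have h2 : (2 * π * Complex.I : ℂ) ≠ 0 := by
      simp [Real.pi_ne_zero]
    have h3 : (2 * π * Complex.I : ℂ) * (x : ℂ) = (2 * π * Complex.I : ℂ) * (n : ℂ) := by
      rw [hn]; ring
    have h4 := mul_left_cancel₀ h2 h3
    exact_mod_cast h4
  · rintro ⟨n, rfl⟩
    exact ex_int n

theorem ex_mul_nat (x : ℝ) (j : ℕ) : ex (x * j) = ex x ^ j := by
  induction j with
  | zero => simp
  | succ j ih =>
    rw [pow_succ, ← ih, ← ex_add]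
    congr 1
    push_cast
    ring

theorem ex_re (x : ℝ) : (ex x).re = Real.cos (2 * π * x) := by
  unfold ex
  rw [show (2 * π * Complex.I * (x : ℂ)) = ((2 * π * x : ℝ) : ℂ) * Complex.I by push_cast; ring]
  rw [Complex.exp_ofReal_mul_I_re]

variable (N : ℕ → ℕ)

/-- `D k = N 0 ⋯ N (k-1)` -/
def D (k : ℕ) : ℕ := ∏ i ∈ range k, N i

theorem D_zero : D N 0 = 1 := by simp [D]

theorem D_succ (k : ℕ) : D N (k + 1) = D N k * N k := by
  unfold D
  rw [prod_range_succ]

theorem D_pos (hN : ∀ i, 2 ≤ N i) (k : ℕ) : 0 < D N k :=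
  prod_pos fun i _ => by have := hN i; omega

theorem D_dvd {a b : ℕ} (h : a ≤ b) : D N a ∣ D N b := by
  unfold D
  exact prod_dvd_prod_of_subset _ _ _ (range_subset_range.2 h)

theorem D_dvdZ {a b : ℕ} (h : a ≤ b) : (D N a : ℤ) ∣ (D N b : ℤ) := by
  exact_mod_cast D_dvd N h

theorem two_pow_le (hN : ∀ i, 2 ≤ N i) (k : ℕ) : 2 ^ k ≤ D N k := by
  unfold D
  calc 2 ^ k = ∏ _i ∈ range k, 2 := by rw [prod_const, card_range]
    _ ≤ ∏ i ∈ range k, N i := prod_le_prod' fun i _ => hN i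

/-- The Fourier transform of the uniform measure on the numbers `j / D (i + 1)`, `j < N i`. -/
noncomputable def m (i : ℕ) (ξ : ℝ) : ℂ :=
  (∑ j ∈ range (N i), ex (ξ * ((j : ℝ) / D N (i + 1)))) / N i

theorem m_eq (i : ℕ) (ξ : ℝ) :
    m N i ξ = (∑ j ∈ range (N i), ex (ξ / D N (i + 1)) ^ j) / N i := by
  unfold m
  congr 1
  refine sum_congr rfl fun j _ => ?_
  rw [← ex_mul_nat]
  congr 1
  ring

variable {N}

theorem norm_m_le (hN : ∀ i, 2 ≤ N i) (i : ℕ) (ξ : ℝ) : ‖m N i ξ‖ ≤ 1 := by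
  unfold m
  have h0 : (0 : ℝ) < N i := by
    have := hN i
    exact_mod_cast (by omega : 0 < N i)
  rw [norm_div, Complex.norm_natCast, div_le_one h0]
  refine (norm_sum_le _ _).trans ?_
  simp [norm_ex]

theorem m_zero (hN : ∀ i, 2 ≤ N i) (i : ℕ) : m N i 0 = 1 := by
  unfold m
  have h0 : (N i : ℂ) ≠ 0 := by
    have := hN i
    exact_mod_cast (by omega : N i ≠ 0)
  simp [h0]

theorem pow_N (hN : ∀ i, 2 ≤ N i) (i : ℕ) (ξ : ℝ) :
    ex (ξ / D N (i + 1)) ^ N i = ex (ξ / D N i) := by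
  rw [← ex_mul_nat]
  congr 1
  have h1 : (D N i : ℝ) ≠ 0 := by exact_mod_cast (D_pos N hN i).ne'
  have h2 : (N i : ℝ) ≠ 0 := by
    have := hN i
    exact_mod_cast (by omega : N i ≠ 0)
  rw [D_succ]
  push_cast
  field_simp

theorem m_int_zero (hN : ∀ i, 2 ≤ N i) (i : ℕ) (n : ℤ) (h1 : (D N i : ℤ) ∣ n)
    (h2 : ¬ (D N (i + 1) : ℤ) ∣ n) : m N i n = 0 := by
  rw [m_eq]
  have hq : ex ((n : ℝ) / D N (i + 1)) ≠ 1 := by
    intro h
    rw [ex_eq_one] at h
    obtain ⟨k, hk⟩ := h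
    apply h2
    have h3 : (D N (i + 1) : ℝ) ≠ 0 := by exact_mod_cast (D_pos N hN (i + 1)).ne'
    rw [div_eq_iff h3] at hk
    refine ⟨k, ?_⟩
    have : (n : ℝ) = ((D N (i + 1) * k : ℤ) : ℝ) := by
      rw [hk]; push_cast; ring
    exact_mod_cast this
  rw [geom_sum_eq hq, pow_N hN]
  obtain ⟨k, rfl⟩ := h1
  have h3 : (D N i : ℝ) ≠ 0 := by exact_mod_cast (D_pos N hN i).ne'
  have h4 : (((D N i : ℤ) * k : ℤ) : ℝ) / D N i = (k : ℤ) := by
    push_cast
    field_simp
  rw [h4, ex_int]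
  simp

theorem m_ne (hN : ∀ i, 2 ≤ N i) (i : ℕ) (ξ : ℝ) (h : m N i ξ = 0) :
    ∃ n : ℤ, ξ = n ∧ (D N i : ℤ) ∣ n ∧ ¬ (D N (i + 1) : ℤ) ∣ n := by
  rw [m_eq] at h
  have hNc : (N i : ℂ) ≠ 0 := by
    have := hN i
    exact_mod_cast (by omega : N i ≠ 0)
  have h3 : (D N i : ℝ) ≠ 0 := by exact_mod_cast (D_pos N hN i).ne'
  have h4 : (D N (i + 1) : ℝ) ≠ 0 := by exact_mod_cast (D_pos N hN (i + 1)).ne'
  rcases div_eq_zero_iff.1 h with h | h
  swap
  · exact absurd h hNc
  have hq : ex (ξ / D N (i + 1)) ≠ 1 := by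
    intro hq
    rw [hq] at h
    simp at h
    exact hNc (by exact_mod_cast h)
  rw [geom_sum_eq hq, div_eq_zero_iff] at h
  rcases h with h | h
  swap
  · exact absurd (sub_eq_zero.1 h) hq
  rw [pow_N hN, sub_eq_zero, ex_eq_one] at h
  obtain ⟨k, hk⟩ := h
  rw [div_eq_iff h3] at hk
  refine ⟨D N i * k, by rw [hk]; push_cast; ring, ⟨k, rfl⟩, ?_⟩
  rintro ⟨l, hl⟩
  apply hq
  rw [ex_eq_one]
  refine ⟨l, ?_⟩
  rw [div_eq_iff h4, hk]
  have : (((D N i : ℤ) * k : ℤ) : ℝ) = (((D N (i + 1) : ℤ) * l : ℤ) : ℝ) := by rw [hl]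
  push_cast at this
  linarith

theorem m_per (hN : ∀ i, 2 ≤ N i) (i : ℕ) (ξ : ℝ) (a b : ℤ) (h : (D N (i + 1) : ℤ) ∣ a - b) :
    m N i (ξ - a) = m N i (ξ - b) := by
  obtain ⟨k, hk⟩ := h
  have h4 : (D N (i + 1) : ℝ) ≠ 0 := by exact_mod_cast (D_pos N hN (i + 1)).ne'
  rw [m_eq, m_eq]
  have h1 : (ξ - a) / (D N (i + 1) : ℝ) = (ξ - b) / (D N (i + 1) : ℝ) + ((-k : ℤ) : ℝ) := by
    have h2 : (a : ℝ) = b + (D N (i + 1) : ℝ) * k := by
      have h3 : a = b + (D N (i + 1) : ℤ) * k := by rw [← hk]; ring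
      rw [h3]
      push_cast
      rfl
    rw [h2]
    push_cast
    field_simp
    ring
  rw [h1, ex_add_int]

theorem m_parseval (hN : ∀ i, 2 ≤ N i) (i : ℕ) (η : ℝ) :
    ∑ e ∈ range (N i), ‖m N i (η - e * D N i)‖ ^ 2 = 1 := by
  have hNr : (N i : ℝ) ≠ 0 := by
    have := hN i
    exact_mod_cast (by omega : N i ≠ 0)
  have hNc : (N i : ℂ) ≠ 0 := by exact_mod_cast hNr
  have h3 : (D N i : ℝ) ≠ 0 := by exact_mod_cast (D_pos N hN i).ne'
  obtain ⟨q, hq⟩ : ∃ q : ℕ → ℂ, ∀ j, q j = ex (η * ((j : ℝ) / D N (i + 1))) := ⟨_, fun _ => rfl⟩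
  have hqn : ∀ j, q j * conj (q j) = 1 := by
    intro j
    rw [Complex.mul_conj, Complex.normSq_eq_norm_sq, hq, norm_ex]
    simp
  have hm : ∀ e : ℕ, m N i (η - e * D N i) =
      (∑ j ∈ range (N i), q j * ex (-((e : ℝ) * j / N i))) / N i := by
    intro e
    unfold m
    congr 1
    refine sum_congr rfl fun j _ => ?_
    rw [hq, ← ex_add]
    congr 1
    rw [D_succ]
    push_cast
    field_simp
    ring
  have key : (∑ e ∈ range (N i), ((‖m N i (η - e * D N i)‖ ^ 2 : ℝ) : ℂ)) = 1 := by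
    have h5 : ∀ e ∈ range (N i), ((‖m N i (η - e * D N i)‖ ^ 2 : ℝ) : ℂ) =
        (∑ j ∈ range (N i), ∑ l ∈ range (N i), q j * conj (q l) *
          ex (-((e : ℝ) * ((j : ℝ) - l) / N i))) / (N i * N i) := by
      intro e _
      rw [← Complex.normSq_eq_norm_sq, ← Complex.mul_conj, hm]
      rw [map_div₀, map_sum, div_mul_div_comm, sum_mul_sum, Complex.conj_natCast]
      congr 1
      refine sum_congr rfl fun j _ => sum_congr rfl fun l _ => ?_
      rw [map_mul, conj_ex, neg_neg]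
      have h6 : ex (-((e : ℝ) * ((j : ℝ) - l) / N i)) = ex (-((e : ℝ) * j / N i)) * ex ((e : ℝ) * l / N i) := by
        rw [← ex_add]
        congr 1
        ring
      rw [h6]
      ring
    rw [sum_congr rfl h5, ← sum_div]
    have h7 : ∑ e ∈ range (N i), ∑ j ∈ range (N i), ∑ l ∈ range (N i), q j * conj (q l) *
          ex (-((e : ℝ) * ((j : ℝ) - l) / N i)) = N i * N i := by
      rw [sum_comm]
      have h8 : ∀ j ∈ range (N i), ∑ e ∈ range (N i), ∑ l ∈ range (N i), q j * conj (q l) *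
          ex (-((e : ℝ) * ((j : ℝ) - l) / N i)) = N i := by
        intro j hj
        rw [sum_comm]
        rw [Finset.sum_eq_single j]
        · have : ∀ e ∈ range (N i), q j * conj (q j) * ex (-((e : ℝ) * ((j : ℝ) - j) / N i)) = 1 := by
            intro e _
            rw [hqn, sub_self, mul_zero, zero_div, neg_zero, ex_zero, mul_one]
          rw [sum_congr rfl this]
          simp
        · intro l hl hlj
          rw [← mul_sum]
          have h9 : ∑ e ∈ range (N i), ex (-((e : ℝ) * ((j : ℝ) - l) / N i)) = 0 := by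
            have h10 : ∀ e ∈ range (N i), ex (-((e : ℝ) * ((j : ℝ) - l) / N i)) =
                ex (-(((j : ℝ) - l) / N i)) ^ e := by
              intro e _
              rw [← ex_mul_nat]
              congr 1
              ring
            rw [sum_congr rfl h10]
            have hne : ex (-(((j : ℝ) - l) / N i)) ≠ 1 := by
              intro h
              rw [ex_eq_one] at h
              obtain ⟨k, hk⟩ := h
              have h11 : ((l : ℤ) - j : ℤ) = k * N i := by
                have : (((l : ℤ) - j : ℤ) : ℝ) = ((k * N i : ℤ) : ℝ) := by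
                  push_cast
                  field_simp at hk
                  linarith
                exact_mod_cast this
              rw [mem_range] at hj hl
              have h12 : (N i : ℤ) ∣ (l : ℤ) - j := ⟨k, by rw [h11]; ring⟩
              have h13 : (l : ℤ) - j = 0 := by
                apply Int.eq_zero_of_abs_lt_dvd h12
                rw [abs_lt]
                omega
              omega
            rw [geom_sum_eq hne, ← ex_mul_nat]
            have h14 : -(((j : ℝ) - l) / N i) * (N i : ℕ) = (((l : ℤ) - j : ℤ) : ℝ) := by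
              push_cast
              field_simp
              ring
            rw [h14, ex_int]
            simp
          rw [h9, mul_zero]
        · intro h
          exact absurd hj h
      rw [sum_congr rfl h8]
      simp
    rw [h7, div_self (mul_ne_zero hNc hNc)]
  have h15 : ((∑ e ∈ range (N i), ‖m N i (η - e * D N i)‖ ^ 2 : ℝ) : ℂ) = ((1 : ℝ) : ℂ) := by
    rw [Complex.ofReal_sum, key]
    simp
  exact Complex.ofReal_injective h15

end Pool.Agent.X231.CS
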