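import Mathlib
import Pool.Agent.X231.CS.Dig

set_option autoImplicit false

/-!
# Bounds for infinite products of the Fourier transforms of digit measures
-/

namespace Pool.Agent.X231.CS

open Finset Filter Topology
open scoped Real ComplexConjugate
open Pool.Agent.X212.Spec (ex ex_add ex_zero ex_int ex_add_int conj_ex norm_ex ex_sub continuous_ex)

variable {N : ℕ → ℕ}

/-- The product of the first `n` factors with the positions `p`. -/
noncomputable def P (N : ℕ → ℕ) (p : ℕ → ℕ) (n : ℕ) (ξ : ℝ) : ℂ := ∏ i ∈ range n, m N (p i) ξ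

theorem P_succ (p : ℕ → ℕ) (n : ℕ) (ξ : ℝ) : P N p (n + 1) ξ = P N p n ξ * m N (p n) ξ := by
  unfold P
  rw [prod_range_succ]

theorem P_Ico (p : ℕ → ℕ) {J n : ℕ} (h : J ≤ n) (ξ : ℝ) :
    P N p n ξ = P N p J ξ * ∏ i ∈ Ico J n, m N (p i) ξ := by
  unfold P
  rw [Finset.prod_range_mul_prod_Ico _ h]

/-- The length of the support of the measure with the digits at the positions `p J, …, p (n-1)`. -/
noncomputable def len (N : ℕ → ℕ) (p : ℕ → ℕ) (J n : ℕ) : ℝ :=
  ∑ i ∈ Ico J n, ((N (p i) : ℝ) - 1) / D N (p i + 1)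

theorem len_nonneg (hN : ∀ i, 2 ≤ N i) (p : ℕ → ℕ) (J n : ℕ) : 0 ≤ len N p J n := by
  unfold len
  refine sum_nonneg fun i _ => ?_
  have h1 : (2 : ℝ) ≤ N (p i) := by exact_mod_cast hN (p i)
  have h2 : (0 : ℝ) < D N (p i + 1) := by exact_mod_cast D_pos N hN _
  exact div_nonneg (by linarith) h2.le

theorem len_le (hN : ∀ i, 2 ≤ N i) {p : ℕ → ℕ} (hp : StrictMono p) (J n : ℕ) (h : J ≤ n) :
    len N p J n ≤ 1 / D N (p J) - 1 / D N (p n) := by
  induction n, h using Nat.le_induction with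
  | base => simp [len]
  | succ n hn ih =>
    unfold len at ih ⊢
    rw [sum_Ico_succ_top hn]
    have h1 : (0 : ℝ) < D N (p n) := by exact_mod_cast D_pos N hN _
    have h2 : (0 : ℝ) < D N (p n + 1) := by exact_mod_cast D_pos N hN _
    have h3 : (0 : ℝ) < D N (p (n + 1)) := by exact_mod_cast D_pos N hN _
    have h4 : D N (p n + 1) ≤ D N (p (n + 1)) :=
      Nat.le_of_dvd (D_pos N hN _) (D_dvd N (hp (Nat.lt_succ_self n)))
    have h5 : (1 : ℝ) / D N (p (n + 1)) ≤ 1 / D N (p n + 1) :=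
      one_div_le_one_div_of_le h2 (by exact_mod_cast h4)
    have h6 : ((N (p n) : ℝ) - 1) / D N (p n + 1) = 1 / D N (p n) - 1 / D N (p n + 1) := by
      have h7 : (N (p n) : ℝ) ≠ 0 := by
        have := hN (p n)
        exact_mod_cast (by omega : N (p n) ≠ 0)
      rw [D_succ]
      push_cast
      field_simp
    rw [h6]
    linarith

theorem re_ge (hN : ∀ i, 2 ≤ N i) (p : ℕ → ℕ) (t c : ℝ) (J n : ℕ) (h : J ≤ n) : ∀ x : ℝ,
    (∀ y, x ≤ y → y ≤ x + len N p J n → c ≤ Real.cos (2 * π * (t * y))) →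
    c ≤ (ex (t * x) * ∏ i ∈ Ico J n, m N (p i) t).re := by
  induction n, h using Nat.le_induction with
  | base =>
    intro x hx
    simp only [Finset.Ico_self, prod_empty, mul_one]
    rw [ex_re]
    exact hx x le_rfl (by simp [len])
  | succ n hn ih =>
    intro x hx
    rw [prod_Ico_succ_top hn]
    have hNr : (0 : ℝ) < N (p n) := by
      have := hN (p n)
      exact_mod_cast (by omega : 0 < N (p n))
    have hNc : (N (p n) : ℂ) ≠ 0 := by exact_mod_cast hNr.ne'
    have h2 : (0 : ℝ) < D N (p n + 1) := by exact_mod_cast D_pos N hN _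
    have hlen : len N p J (n + 1) = len N p J n + ((N (p n) : ℝ) - 1) / D N (p n + 1) := by
      unfold len
      rw [sum_Ico_succ_top hn]
    have h1 : ex (t * x) * ((∏ i ∈ Ico J n, m N (p i) t) * m N (p n) t) =
        (∑ j ∈ range (N (p n)), ex (t * (x + (j : ℝ) / D N (p n + 1))) *
          ∏ i ∈ Ico J n, m N (p i) t) / N (p n) := by
      unfold m
      rw [← mul_assoc, mul_div_assoc', mul_sum]
      congr 1
      refine sum_congr rfl fun j _ => ?_
      rw [mul_add, ex_add]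
      ring
    rw [h1]
    have h3 : ((∑ j ∈ range (N (p n)), ex (t * (x + (j : ℝ) / D N (p n + 1))) *
          ∏ i ∈ Ico J n, m N (p i) t) / N (p n)).re =
        (∑ j ∈ range (N (p n)), (ex (t * (x + (j : ℝ) / D N (p n + 1))) *
          ∏ i ∈ Ico J n, m N (p i) t).re) / N (p n) := by
      rw [← Complex.ofReal_natCast, Complex.div_ofReal_re, Complex.re_sum]
    rw [h3, le_div_iff₀ hNr]
    calc c * N (p n) = ∑ _j ∈ range (N (p n)), c := by
          rw [sum_const, card_range, nsmul_eq_mul, mul_comm]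
      _ ≤ _ := by
        refine sum_le_sum fun j hj => ?_
        refine ih _ fun y hy1 hy2 => hx y ?_ ?_
        · have : (0 : ℝ) ≤ (j : ℝ) / D N (p n + 1) := by positivity
          linarith
        · rw [hlen]
          have h4 : (j : ℝ) / D N (p n + 1) ≤ ((N (p n) : ℝ) - 1) / D N (p n + 1) := by
            apply div_le_div_of_nonneg_right _ h2.le
            rw [mem_range] at hj
            have : (j : ℝ) + 1 ≤ N (p n) := by exact_mod_cast hj
            linarith
          linarith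

theorem tail_ge (hN : ∀ i, 2 ≤ N i) {p : ℕ → ℕ} (hp : StrictMono p) (J n : ℕ) (h : J ≤ n) (t : ℝ)
    (ht : 2 * |t| ≤ D N (p J)) :
    Real.cos (π * (|t| / D N (p J))) ≤ ‖∏ i ∈ Ico J n, m N (p i) t‖ := by
  have hD : (0 : ℝ) < D N (p J) := by exact_mod_cast D_pos N hN _
  have hl := len_le hN hp J n h
  have hD2 : (0 : ℝ) < D N (p n) := by exact_mod_cast D_pos N hN _
  have h1 := re_ge hN p t (Real.cos (π * (|t| / D N (p J)))) J n h (-(1 / (2 * D N (p J)))) (by
    intro y hy1 hy2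
    have hy3 : |y| ≤ 1 / (2 * D N (p J)) := by
      rw [abs_le]
      refine ⟨hy1, ?_⟩
      have h3 : (1 : ℝ) / D N (p J) = 1 / (2 * D N (p J)) + 1 / (2 * D N (p J)) := by
        field_simp
        norm_num
      have h4 : (0 : ℝ) < 1 / D N (p n) := by positivity
      linarith
    rw [← Real.cos_abs (2 * π * (t * y))]
    apply Real.cos_le_cos_of_nonneg_of_le_pi (abs_nonneg _)
    · have h5 : |t| / D N (p J) ≤ 1 := by
        rw [div_le_one hD]
        have := abs_nonneg t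
        linarith
      calc π * (|t| / D N (p J)) ≤ π * 1 := mul_le_mul_of_nonneg_left h5 Real.pi_pos.le
        _ = π := mul_one _
    · rw [abs_mul, abs_mul, abs_mul, abs_of_pos Real.pi_pos, abs_of_pos (by norm_num : (0 : ℝ) < 2)]
      calc 2 * π * (|t| * |y|) ≤ 2 * π * (|t| * (1 / (2 * D N (p J)))) := by
            have := Real.pi_pos
            gcongr
        _ = π * (|t| / D N (p J)) := by field_simp)
  refine h1.trans ((Complex.re_le_norm _).trans ?_)
  rw [norm_mul, norm_ex, one_mul]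

theorem exists_D (hN : ∀ i, 2 ≤ N i) {p : ℕ → ℕ} (hp : StrictMono p) (B : ℝ) :
    ∃ J₀, ∀ J ≥ J₀, B ≤ D N (p J) := by
  obtain ⟨n, hn⟩ := exists_nat_ge B
  refine ⟨n, fun J hJ => ?_⟩
  have h1 : J ≤ p J := hp.id_le J
  have h2 := two_pow_le N hN (p J)
  have h3 : p J < 2 ^ p J := Nat.lt_two_pow_self
  have h4 : n ≤ D N (p J) := by omega
  exact hn.trans (by exact_mod_cast h4)

section Limit

variable {p : ℕ → ℕ} {G : ℝ → ℂ}

theorem G_ge (hN : ∀ i, 2 ≤ N i) (hp : StrictMono p)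
    (hG : ∀ ξ, Tendsto (fun n => P N p n ξ) atTop (𝓝 (G ξ))) (J : ℕ) (t : ℝ)
    (ht : 2 * |t| ≤ D N (p J)) :
    Real.cos (π * (|t| / D N (p J))) * ‖P N p J t‖ ≤ ‖G t‖ := by
  refine ge_of_tendsto (hG t).norm ?_
  filter_upwards [eventually_ge_atTop J] with n hn
  rw [P_Ico p hn, norm_mul, mul_comm]
  exact mul_le_mul_of_nonneg_left (tail_ge hN hp J n hn t ht) (norm_nonneg _)

theorem G_le (hN : ∀ i, 2 ≤ N i)
    (hG : ∀ ξ, Tendsto (fun n => P N p n ξ) atTop (𝓝 (G ξ))) (J : ℕ) (t : ℝ) :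
    ‖G t‖ ≤ ‖P N p J t‖ := by
  refine le_of_tendsto (hG t).norm ?_
  filter_upwards [eventually_ge_atTop J] with n hn
  rw [P_Ico p hn, norm_mul]
  refine mul_le_of_le_one_right (norm_nonneg _) ?_
  rw [norm_prod]
  exact prod_le_one (fun _ _ => norm_nonneg _) (fun i _ => norm_m_le hN _ _)

theorem G_zero (hN : ∀ i, 2 ≤ N i) (hp : StrictMono p)
    (hG : ∀ ξ, Tendsto (fun n => P N p n ξ) atTop (𝓝 (G ξ))) (ξ : ℝ) (h : G ξ = 0) :
    ∃ n : ℤ, ξ = n ∧ ∃ i, (D N (p i) : ℤ) ∣ n ∧ ¬ (D N (p i + 1) : ℤ) ∣ n := by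
  obtain ⟨J, hJ⟩ := exists_D hN hp (4 * |ξ|)
  have h1 := hJ J le_rfl
  have hD : (0 : ℝ) < D N (p J) := by exact_mod_cast D_pos N hN _
  have h2 := G_ge hN hp hG J ξ (by have := abs_nonneg ξ; linarith)
  rw [h, norm_zero] at h2
  have h3 : 0 < Real.cos (π * (|ξ| / D N (p J))) := by
    apply Real.cos_pos_of_mem_Ioo
    have h4 : |ξ| / D N (p J) ≤ 1 / 4 := by
      rw [div_le_iff₀ hD]
      linarith
    have h5 : 0 ≤ |ξ| / D N (p J) := by positivity
    have := Real.pi_pos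
    constructor
    · nlinarith
    · nlinarith
  have h6 : ‖P N p J ξ‖ = 0 := by
    by_contra hne
    have h7 : 0 < ‖P N p J ξ‖ := lt_of_le_of_ne (norm_nonneg _) (Ne.symm hne)
    have := mul_pos h3 h7
    linarith
  rw [norm_eq_zero] at h6
  unfold P at h6
  rw [prod_eq_zero_iff] at h6
  obtain ⟨i, -, hi⟩ := h6
  obtain ⟨n, hn, h8, h9⟩ := m_ne hN _ _ hi
  exact ⟨n, hn, i, h8, h9⟩

theorem G_int (hN : ∀ i, 2 ≤ N i)
    (hG : ∀ ξ, Tendsto (fun n => P N p n ξ) atTop (𝓝 (G ξ))) (n : ℤ) (i : ℕ)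
    (h1 : (D N (p i) : ℤ) ∣ n) (h2 : ¬ (D N (p i + 1) : ℤ) ∣ n) : G n = 0 := by
  refine tendsto_nhds_unique (hG n) ?_
  refine tendsto_const_nhds.congr' ?_
  filter_upwards [eventually_gt_atTop i] with k hk
  unfold P
  exact (prod_eq_zero (mem_range.2 hk) (m_int_zero hN _ n h1 h2)).symm

end Limit

end Pool.Agent.X231.CS
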