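import Mathlib
import Pool.Agent.X231.CS.Bound

set_option autoImplicit false

/-!
# Construction of the complementary set
-/

namespace Pool.Agent.X231.CS

open Finset Filter Topology
open scoped Real ComplexConjugate

variable (N : ℕ → ℕ)

/-- `d` is a zero of the Fourier transform of the measure with the digits at the even positions. -/
def OM (d : ℤ) : Prop := ∃ i, (D N (2 * i) : ℤ) ∣ d ∧ ¬ (D N (2 * i + 1) : ℤ) ∣ d

/-- `d` is a zero of the Fourier transform of the measure with the digits at the odd positions. -/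
def ON (d : ℤ) : Prop := ∃ i, (D N (2 * i + 1) : ℤ) ∣ d ∧ ¬ (D N (2 * i + 2) : ℤ) ∣ d

/-- The free positions of the second measure. -/
def pn (i : ℕ) : ℕ := 2 * i + 1

/-- A finite system of integers at the level `J`. -/
structure Sys (Λ : Set ℤ) (J : ℕ) (S : Finset ℤ) : Prop where
  orth : ∀ s ∈ S, ∀ s' ∈ S, s ≠ s' →
    ∃ i < J, (D N (2 * i + 1) : ℤ) ∣ s - s' ∧ ¬ (D N (2 * i + 2) : ℤ) ∣ s - s'
  parseval : ∀ ξ : ℝ, ∑ s ∈ S, ‖P N pn J (ξ - s)‖ ^ 2 = 1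
  cover : ∀ z : ℤ, ∃ l ∈ Λ, ∃ s ∈ S, (D N (2 * J) : ℤ) ∣ z - l - s

variable {N} {Λ : Set ℤ}

theorem sys_zero (hne : Λ.Nonempty) : Sys N Λ 0 {0} where
  orth := by
    intro s hs s' hs' h
    rw [mem_singleton] at hs hs'
    exact absurd (hs.trans hs'.symm) h
  parseval := by
    intro ξ
    simp [P]
  cover := by
    intro z
    obtain ⟨l, hl⟩ := hne
    refine ⟨l, hl, 0, mem_singleton_self _, ?_⟩
    simp [D_zero]

/-- The digits of `Λ` at the even positions are free. -/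
theorem star (horth : ∀ a ∈ Λ, ∀ b ∈ Λ, a ≠ b → OM N (a - b))
    (hmax : ∀ w : ℤ, ¬ ∀ l ∈ Λ, OM N (w - l)) {l : ℤ} (hl : l ∈ Λ) (J : ℕ) (n : ℤ)
    (hn : (D N (2 * J) : ℤ) ∣ n - l) : ∃ l' ∈ Λ, (D N (2 * J + 1) : ℤ) ∣ n - l' := by
  by_contra hcon
  push Not at hcon
  apply hmax n
  intro k hk
  by_cases h1 : (D N (2 * J) : ℤ) ∣ n - k
  · exact ⟨J, h1, hcon k hk⟩
  · have hne : l ≠ k := by
      rintro rfl
      exact h1 hn
    obtain ⟨i, hi1, hi2⟩ := horth l hl k hk hne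
    have e : n - k = (n - l) + (l - k) := by ring
    have hiJ : i < J := by
      by_contra hge
      apply h1
      rw [e]
      exact dvd_add hn ((D_dvdZ N (by omega)).trans hi1)
    refine ⟨i, ?_, ?_⟩
    · rw [e]
      exact dvd_add ((D_dvdZ N (by omega)).trans hn) hi1
    · intro h
      apply hi2
      rw [e] at h
      exact (dvd_add_right ((D_dvdZ N (by omega : 2 * i + 1 ≤ 2 * J)).trans hn)).1 h

theorem P_per (hN : ∀ i, 2 ≤ N i) (J : ℕ) (ξ : ℝ) (a b : ℤ) (h : (D N (2 * J) : ℤ) ∣ a - b) :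
    P N pn J (ξ - a) = P N pn J (ξ - b) := by
  unfold P
  refine prod_congr rfl fun i hi => ?_
  rw [mem_range] at hi
  apply m_per hN
  exact (D_dvdZ N (by unfold pn; omega)).trans h

/-- One step, with prescribed lifts. -/
theorem step (hN : ∀ i, 2 ≤ N i) (horth : ∀ a ∈ Λ, ∀ b ∈ Λ, a ≠ b → OM N (a - b))
    (hmax : ∀ w : ℤ, ¬ ∀ l ∈ Λ, OM N (w - l)) {J : ℕ} {S : Finset ℤ} (hS : Sys N Λ J S)
    (L : ℤ → ℕ → ℤ) (hL0 : ∀ s ∈ S, L s 0 = s)
    (hL : ∀ s ∈ S, ∀ e < N (2 * J + 1), (D N (2 * J + 2) : ℤ) ∣ L s e - (s + e * D N (2 * J + 1))) :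
    S ⊆ (S ×ˢ range (N (2 * J + 1))).image (fun q => L q.1 q.2) ∧
    Sys N Λ (J + 1) ((S ×ˢ range (N (2 * J + 1))).image (fun q => L q.1 q.2)) := by
  have hN0 : 0 < N (2 * J + 1) := by
    have := hN (2 * J + 1)
    omega
  have hD1 : (D N (2 * J + 1) : ℤ) ≠ 0 := by exact_mod_cast (D_pos N hN _).ne'
  have key : ∀ q ∈ S ×ˢ range (N (2 * J + 1)), ∀ q' ∈ S ×ˢ range (N (2 * J + 1)), q ≠ q' →
      ∃ i < J + 1, (D N (2 * i + 1) : ℤ) ∣ L q.1 q.2 - L q'.1 q'.2 ∧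
        ¬ (D N (2 * i + 2) : ℤ) ∣ L q.1 q.2 - L q'.1 q'.2 := by
    rintro ⟨s, e⟩ hq ⟨s', e'⟩ hq' hne
    rw [mem_product, mem_range] at hq hq'
    obtain ⟨c, hc⟩ := hL s hq.1 e hq.2
    obtain ⟨c', hc'⟩ := hL s' hq'.1 e' hq'.2
    have e1 : L s e - L s' e' = (s - s') + (D N (2 * J + 1) : ℤ) * ((e : ℤ) - e') +
        (D N (2 * J + 2) : ℤ) * (c - c') := by
      linear_combination hc - hc'
    simp only
    by_cases hss : s = s'
    · subst hss
      have hee : e ≠ e' := fun h => hne (by rw [h])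
      refine ⟨J, Nat.lt_succ_self J, ?_, ?_⟩
      · rw [e1, sub_self, zero_add]
        exact dvd_add (dvd_mul_right _ _)
          ((D_dvdZ N (by omega : 2 * J + 1 ≤ 2 * J + 2)).trans (dvd_mul_right _ _))
      · intro h
        rw [e1, sub_self, zero_add] at h
        have h1 := (dvd_add_left (dvd_mul_right (D N (2 * J + 2) : ℤ) (c - c'))).1 h
        rw [show 2 * J + 2 = (2 * J + 1) + 1 from rfl, D_succ] at h1
        push_cast at h1
        have h2 := (mul_dvd_mul_iff_left hD1).1 h1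
        have h3 : (e : ℤ) - e' = 0 := by
          apply Int.eq_zero_of_abs_lt_dvd h2
          rw [abs_lt]
          omega
        omega
    · obtain ⟨i, hi, h1, h2⟩ := hS.orth s hq.1 s' hq'.1 hss
      have h3 : (D N (2 * i + 2) : ℤ) ∣ (D N (2 * J + 1) : ℤ) * ((e : ℤ) - e') +
          (D N (2 * J + 2) : ℤ) * (c - c') :=
        dvd_add ((D_dvdZ N (by omega)).trans (dvd_mul_right _ _))
          ((D_dvdZ N (by omega)).trans (dvd_mul_right _ _))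
      refine ⟨i, by omega, ?_, ?_⟩
      · rw [e1, add_assoc]
        exact dvd_add h1 ((D_dvdZ N (by omega)).trans h3)
      · intro h
        rw [e1, add_assoc] at h
        exact h2 ((dvd_add_left h3).1 h)
  have hinj : Set.InjOn (fun q : ℤ × ℕ => L q.1 q.2) (S ×ˢ range (N (2 * J + 1)) : Finset (ℤ × ℕ)) := by
    intro q hq q' hq' h
    by_contra hne
    obtain ⟨i, -, -, h2⟩ := key q hq q' hq' hne
    apply h2
    simp only at h
    rw [h, sub_self]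
    exact dvd_zero _
  refine ⟨?_, ?_, ?_, ?_⟩
  · intro s hs
    rw [mem_image]
    exact ⟨(s, 0), mem_product.2 ⟨hs, mem_range.2 hN0⟩, hL0 s hs⟩
  · intro t ht t' ht' hne
    rw [mem_image] at ht ht'
    obtain ⟨q, hq, rfl⟩ := ht
    obtain ⟨q', hq', rfl⟩ := ht'
    exact key q hq q' hq' fun h => hne (by rw [h])
  · intro ξ
    rw [sum_image hinj, sum_product]
    rw [← hS.parseval ξ]
    refine sum_congr rfl fun s hs => ?_
    have h1 : ∀ e ∈ range (N (2 * J + 1)), ‖P N pn (J + 1) (ξ - (L s e : ℤ))‖ ^ 2 =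
        ‖P N pn J (ξ - s)‖ ^ 2 * ‖m N (2 * J + 1) ((ξ - s) - e * D N (2 * J + 1))‖ ^ 2 := by
      intro e he
      rw [mem_range] at he
      have h2 := hL s hs e he
      rw [P_succ, norm_mul, mul_pow]
      congr 2
      · congr 1
        apply P_per hN
        obtain ⟨c, hc⟩ := h2
        have e2 : L s e - s = (D N (2 * J + 1) : ℤ) * e + (D N (2 * J + 2) : ℤ) * c := by
          linear_combination hc
        rw [e2]
        exact dvd_add ((D_dvdZ N (by omega)).trans (dvd_mul_right _ _))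
          ((D_dvdZ N (by omega)).trans (dvd_mul_right _ _))
      · have h3 := m_per hN (2 * J + 1) ξ (L s e) (s + e * D N (2 * J + 1)) h2
        have h4 : pn J = 2 * J + 1 := rfl
        rw [h4, h3]
        congr 2
        push_cast
        ring
    rw [sum_congr rfl h1, ← mul_sum, m_parseval hN, mul_one]
  · intro z
    obtain ⟨l, hl, s, hs, hd⟩ := hS.cover z
    obtain ⟨l', hl', hd'⟩ := star horth hmax hl J (z - s) (by
      have : z - s - l = z - l - s := by ring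
      rw [this]
      exact hd)
    obtain ⟨q, hq⟩ := hd'
    have hNz : (0 : ℤ) < N (2 * J + 1) := by exact_mod_cast hN0
    have h5 := Int.emod_nonneg q hNz.ne'
    have h6 := Int.emod_lt_of_pos q hNz
    refine ⟨l', hl', L s (q % N (2 * J + 1)).toNat, ?_, ?_⟩
    · rw [mem_image]
      refine ⟨(s, (q % N (2 * J + 1)).toNat), mem_product.2 ⟨hs, mem_range.2 ?_⟩, rfl⟩
      omega
    · have h7 : (q % N (2 * J + 1)).toNat < N (2 * J + 1) := by omega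
      obtain ⟨c, hc⟩ := hL s hs _ h7
      have h8 : (((q % N (2 * J + 1)).toNat : ℕ) : ℤ) = q % N (2 * J + 1) := Int.toNat_of_nonneg h5
      rw [h8] at hc
      have h9 := Int.emod_add_mul_ediv q (N (2 * J + 1))
      have h10 : (D N (2 * J + 2) : ℤ) = D N (2 * J + 1) * N (2 * J + 1) := by
        rw [show 2 * J + 2 = (2 * J + 1) + 1 from rfl, D_succ]
        push_cast
        rfl
      have h11 : (2 * (J + 1)) = 2 * J + 2 := by ring
      rw [h11]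
      refine ⟨q / N (2 * J + 1) - c, ?_⟩
      have h12 : (D N (2 * J + 2) : ℤ) * (q / N (2 * J + 1)) =
          D N (2 * J + 1) * (q - q % N (2 * J + 1)) := by
        rw [h10]
        linear_combination (D N (2 * J + 1) : ℤ) * h9
      linear_combination hq - hc - h12

theorem small_rep (a : ℤ) {M : ℕ} (hM : 0 < M) : ∃ b : ℤ, (M : ℤ) ∣ b - a ∧ 2 * |b| ≤ M := by
  have hM' : (0 : ℤ) < M := by exact_mod_cast hM
  have h1 := Int.emod_nonneg a hM'.ne'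
  have h2 := Int.emod_lt_of_pos a hM'
  have h3 := Int.emod_add_mul_ediv a M
  by_cases h : 2 * (a % M) ≤ M
  · refine ⟨a % M, ⟨-(a / M), by linear_combination h3⟩, ?_⟩
    rw [abs_of_nonneg h1]
    exact h
  · refine ⟨a % M - M, ⟨-(a / M) - 1, by linear_combination h3⟩, ?_⟩
    rw [abs_of_neg (by omega)]
    omega

theorem step_special (hN : ∀ i, 2 ≤ N i) (horth : ∀ a ∈ Λ, ∀ b ∈ Λ, a ≠ b → OM N (a - b))
    (hmax : ∀ w : ℤ, ¬ ∀ l ∈ Λ, OM N (w - l)) {J : ℕ} {S : Finset ℤ} (hS : Sys N Λ J S)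
    (y g : ℤ) (hg : g ∈ S) (h1 : (D N (2 * J + 1) : ℤ) ∣ y - g)
    (h2 : ¬ (D N (2 * J + 2) : ℤ) ∣ y - g) :
    ∃ S' : Finset ℤ, S ⊆ S' ∧ y ∈ S' ∧ Sys N Λ (J + 1) S' := by
  classical
  have hN0 : 0 < N (2 * J + 1) := by
    have := hN (2 * J + 1)
    omega
  have hNz : (0 : ℤ) < N (2 * J + 1) := by exact_mod_cast hN0
  obtain ⟨q, hq⟩ := h1
  have h5 := Int.emod_nonneg q hNz.ne'
  have h6 := Int.emod_lt_of_pos q hNz
  obtain ⟨e₀, he₀⟩ : ∃ e₀ : ℕ, e₀ = (q % N (2 * J + 1)).toNat := ⟨_, rfl⟩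
  have h8 : (e₀ : ℤ) = q % N (2 * J + 1) := by rw [he₀]; exact Int.toNat_of_nonneg h5
  have h9 := Int.emod_add_mul_ediv q (N (2 * J + 1))
  have h10 : (D N (2 * J + 2) : ℤ) = D N (2 * J + 1) * N (2 * J + 1) := by
    rw [show 2 * J + 2 = (2 * J + 1) + 1 from rfl, D_succ]
    push_cast
    rfl
  have hdy : (D N (2 * J + 2) : ℤ) ∣ y - (g + e₀ * D N (2 * J + 1)) := by
    refine ⟨q / N (2 * J + 1), ?_⟩
    rw [h8, h10]
    linear_combination hq - (D N (2 * J + 1) : ℤ) * h9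
  have he0 : e₀ ≠ 0 := by
    intro h0
    apply h2
    rw [h0] at hdy
    simpa using hdy
  obtain ⟨L, hL⟩ : ∃ L : ℤ → ℕ → ℤ, ∀ s e, L s e =
      if e = 0 then s else if s = g ∧ e = e₀ then y else s + e * D N (2 * J + 1) := ⟨_, fun _ _ => rfl⟩
  have h := step hN horth hmax hS L (fun s _ => by rw [hL, if_pos rfl]) (by
    intro s _ e _
    rw [hL]
    split_ifs with ha hb
    · rw [ha]
      simp
    · rw [hb.1, hb.2]
      exact hdy
    · rw [sub_self]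
      exact dvd_zero _)
  refine ⟨_, h.1, ?_, h.2⟩
  rw [mem_image]
  refine ⟨(g, e₀), mem_product.2 ⟨hg, mem_range.2 (by omega)⟩, ?_⟩
  simp only
  rw [hL, if_neg he0, if_pos ⟨rfl, rfl⟩]

theorem step_small (hN : ∀ i, 2 ≤ N i) (horth : ∀ a ∈ Λ, ∀ b ∈ Λ, a ≠ b → OM N (a - b))
    (hmax : ∀ w : ℤ, ¬ ∀ l ∈ Λ, OM N (w - l)) {J : ℕ} {S : Finset ℤ} (hS : Sys N Λ J S) :
    ∃ S' : Finset ℤ, S ⊆ S' ∧ Sys N Λ (J + 1) S' ∧ ∀ s ∈ S', s ∈ S ∨ 2 * |s| ≤ D N (2 * (J + 1)) := by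
  classical
  choose b hb1 hb2 using fun a : ℤ => small_rep a (D_pos N hN (2 * J + 2))
  obtain ⟨L, hL⟩ : ∃ L : ℤ → ℕ → ℤ, ∀ s e, L s e =
      if e = 0 then s else b (s + e * D N (2 * J + 1)) := ⟨_, fun _ _ => rfl⟩
  have h := step hN horth hmax hS L (fun s _ => by rw [hL, if_pos rfl]) (by
    intro s _ e _
    rw [hL]
    split_ifs with ha
    · rw [ha]
      simp
    · exact hb1 _)
  refine ⟨_, h.1, h.2, ?_⟩
  intro s hs
  rw [mem_image] at hs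
  obtain ⟨⟨t, e⟩, hq, rfl⟩ := hs
  rw [mem_product] at hq
  simp only
  rw [hL]
  split_ifs with ha
  · exact Or.inl hq.1
  · exact Or.inr (hb2 _)

theorem up (hN : ∀ i, 2 ≤ N i) (horth : ∀ a ∈ Λ, ∀ b ∈ Λ, a ≠ b → OM N (a - b))
    (hmax : ∀ w : ℤ, ¬ ∀ l ∈ Λ, OM N (w - l)) {J : ℕ} {S : Finset ℤ} (hS : Sys N Λ J S) (n : ℕ) :
    ∃ S' : Finset ℤ, S ⊆ S' ∧ Sys N Λ (J + n) S' ∧ ∀ s ∈ S', s ∈ S ∨ 2 * |s| ≤ D N (2 * (J + n)) := by
  induction n with
  | zero => exact ⟨S, subset_rfl, hS, fun s hs => Or.inl hs⟩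
  | succ n ih =>
    obtain ⟨S', h1, h2, h3⟩ := ih
    obtain ⟨S'', h4, h5, h6⟩ := step_small hN horth hmax h2
    refine ⟨S'', h1.trans h4, h5, fun s hs => ?_⟩
    rcases h6 s hs with h | h
    · rcases h3 s h with h' | h'
      · exact Or.inl h'
      · refine Or.inr (h'.trans ?_)
        have := Nat.le_of_dvd (D_pos N hN _) (D_dvd N (by omega : 2 * (J + n) ≤ 2 * (J + (n + 1))))
        exact_mod_cast this
    · exact Or.inr h

theorem not_dvd_large (hN : ∀ i, 2 ≤ N i) {d : ℤ} (hd : d ≠ 0) (J : ℕ) :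
    ∃ K ≥ J, ¬ (D N (2 * K) : ℤ) ∣ d := by
  refine ⟨max J d.natAbs, le_max_left _ _, fun h => ?_⟩
  have h1 : D N (2 * max J d.natAbs) ∣ d.natAbs := Int.natCast_dvd.1 h
  have h2 := Nat.le_of_dvd (Int.natAbs_pos.2 hd) h1
  have h3 := two_pow_le N hN (2 * max J d.natAbs)
  have h4 : 2 * max J d.natAbs < 2 ^ (2 * max J d.natAbs) := Nat.lt_two_pow_self
  have h5 : d.natAbs ≤ max J d.natAbs := le_max_right _ _
  omega

theorem mismatch (hN : ∀ i, 2 ≤ N i) (horth : ∀ a ∈ Λ, ∀ b ∈ Λ, a ≠ b → OM N (a - b))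
    (hmax : ∀ w : ℤ, ¬ ∀ l ∈ Λ, OM N (w - l)) (w : ℤ) (hw : w ∉ Λ) (J : ℕ) {l₀ : ℤ} (hl₀ : l₀ ∈ Λ)
    (h0 : (D N (2 * J) : ℤ) ∣ w - l₀) :
    ∃ K ≥ J, ∃ l ∈ Λ, (D N (2 * K + 1) : ℤ) ∣ w - l ∧ ¬ (D N (2 * K + 2) : ℤ) ∣ w - l := by
  by_contra hcon
  push Not at hcon
  have h1 : ∀ K ≥ J, ∃ l ∈ Λ, (D N (2 * K) : ℤ) ∣ w - l := by
    intro K hK
    induction K, hK using Nat.le_induction with
    | base => exact ⟨l₀, hl₀, h0⟩
    | succ K hK ih =>
      obtain ⟨l, hl, hd⟩ := ih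
      obtain ⟨l', hl', hd'⟩ := star horth hmax hl K w hd
      exact ⟨l', hl', hcon K hK l' hl' hd'⟩
  apply hmax w
  intro l hl
  have hne : w - l ≠ 0 := by
    intro h
    apply hw
    have : w = l := by linarith
    rw [this]
    exact hl
  obtain ⟨K, hK, hnd⟩ := not_dvd_large hN hne J
  obtain ⟨l', hl', hd'⟩ := h1 K hK
  have hll : l' ≠ l := by
    rintro rfl
    exact hnd hd'
  obtain ⟨i, hi1, hi2⟩ := horth l' hl' l hl hll
  have e : w - l = (w - l') + (l' - l) := by ring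
  have hiK : i < K := by
    by_contra hge
    apply hnd
    rw [e]
    exact dvd_add hd' ((D_dvdZ N (by omega)).trans hi1)
  refine ⟨i, ?_, ?_⟩
  · rw [e]
    exact dvd_add ((D_dvdZ N (by omega)).trans hd') hi1
  · intro h
    apply hi2
    rw [e] at h
    exact (dvd_add_right ((D_dvdZ N (by omega : 2 * i + 1 ≤ 2 * K)).trans hd')).1 h

theorem stage (hN : ∀ i, 2 ≤ N i) (horth : ∀ a ∈ Λ, ∀ b ∈ Λ, a ≠ b → OM N (a - b))
    (hmax : ∀ w : ℤ, ¬ ∀ l ∈ Λ, OM N (w - l)) {J : ℕ} {S : Finset ℤ} (hS : Sys N Λ J S) (z : ℤ) :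
    ∃ (J' : ℕ) (S' : Finset ℤ), J < J' ∧ S ⊆ S' ∧ Sys N Λ J' S' ∧
      (∀ s ∈ S', 2 * |s| ≤ D N (2 * J')) ∧ ∃ l ∈ Λ, z - l ∈ S' := by
  obtain ⟨J₁, S₁, hJ₁, hSS₁, hS₁, hz⟩ : ∃ (J₁ : ℕ) (S₁ : Finset ℤ), J ≤ J₁ ∧ S ⊆ S₁ ∧
      Sys N Λ J₁ S₁ ∧ ∃ l ∈ Λ, z - l ∈ S₁ := by
    by_cases hA : ∃ l ∈ Λ, z - l ∈ S
    · exact ⟨J, S, le_rfl, subset_rfl, hS, hA⟩
    · obtain ⟨l₀, hl₀, g, hg, hd⟩ := hS.cover z
      have hw : z - g ∉ Λ := by
        intro h
        apply hA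
        refine ⟨z - g, h, ?_⟩
        rw [sub_sub_cancel]
        exact hg
      obtain ⟨K, hK, l, hl, h1, h2⟩ := mismatch hN horth hmax (z - g) hw J hl₀ (by
        have : z - g - l₀ = z - l₀ - g := by ring
        rw [this]
        exact hd)
      obtain ⟨n, rfl⟩ := Nat.exists_eq_add_of_le hK
      obtain ⟨S', h3, h4, -⟩ := up hN horth hmax hS n
      have e : z - l - g = z - g - l := by ring
      obtain ⟨S'', h5, h6, h7⟩ := step_special hN horth hmax h4 (z - l) g (h3 hg)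
        (by rw [e]; exact h1) (by rw [e]; exact h2)
      exact ⟨J + n + 1, S'', by omega, h3.trans h5, h7, l, hl, h6⟩
  obtain ⟨B, hB⟩ : ∃ B : ℕ, ∀ s ∈ S₁, 2 * |s| ≤ B := by
    refine ⟨∑ s ∈ S₁, (2 * s.natAbs), fun s hs => ?_⟩
    have h1 := single_le_sum (f := fun s : ℤ => 2 * s.natAbs) (fun _ _ => Nat.zero_le _) hs
    have h2 : ((2 * s.natAbs : ℕ) : ℤ) = 2 * |s| := by
      push_cast
      rfl
    rw [← h2]
    exact_mod_cast h1
  obtain ⟨S', h3, h4, h5⟩ := up hN horth hmax hS₁ (B + 1)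
  refine ⟨J₁ + (B + 1), S', by omega, hSS₁.trans h3, h4, fun s hs => ?_, ?_⟩
  · rcases h5 s hs with h | h
    · refine (hB s h).trans ?_
      have h6 := two_pow_le N hN (2 * (J₁ + (B + 1)))
      have h7 : 2 * (J₁ + (B + 1)) < 2 ^ (2 * (J₁ + (B + 1))) := Nat.lt_two_pow_self
      have h8 : B ≤ D N (2 * (J₁ + (B + 1))) := by omega
      exact_mod_cast h8
    · exact h
  · obtain ⟨l, hl, hz⟩ := hz
    exact ⟨l, hl, h3 hz⟩

/-- **The construction.** -/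
theorem construct (hN : ∀ i, 2 ≤ N i) (hne : Λ.Nonempty)
    (horth : ∀ a ∈ Λ, ∀ b ∈ Λ, a ≠ b → OM N (a - b))
    (hmax : ∀ w : ℤ, ¬ ∀ l ∈ Λ, OM N (w - l)) :
    ∃ (J : ℕ → ℕ) (S : ℕ → Finset ℤ), StrictMono J ∧ Monotone S ∧ (∀ n, Sys N Λ (J n) (S n)) ∧
      (∀ n, ∀ s ∈ S (n + 1), 2 * |s| ≤ D N (2 * J (n + 1))) ∧
      ∀ z : ℤ, ∃ l ∈ Λ, ∃ n, z - l ∈ S n := by
  classical
  let T := {x : ℕ × Finset ℤ // Sys N Λ x.1 x.2}
  have hst : ∀ (x : T) (z : ℤ), ∃ y : T, x.1.1 < y.1.1 ∧ x.1.2 ⊆ y.1.2 ∧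
      (∀ s ∈ y.1.2, 2 * |s| ≤ D N (2 * y.1.1)) ∧ ∃ l ∈ Λ, z - l ∈ y.1.2 := by
    intro x z
    obtain ⟨J', S', h1, h2, h3, h4, h5⟩ := stage hN horth hmax x.2 z
    exact ⟨⟨(J', S'), h3⟩, h1, h2, h4, h5⟩
  choose nx hnx1 hnx2 hnx3 hnx4 using hst
  let seq : ℕ → T := fun n => Nat.rec ⟨(0, {0}), sys_zero hne⟩
    (fun n x => nx x (Equiv.intEquivNat.symm n)) n
  have hseq : ∀ n, seq (n + 1) = nx (seq n) (Equiv.intEquivNat.symm n) := fun n => rfl
  refine ⟨fun n => (seq n).1.1, fun n => (seq n).1.2, strictMono_nat_of_lt_succ fun n => ?_,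
    monotone_nat_of_le_succ fun n => ?_, fun n => (seq n).2, fun n => ?_, fun z => ?_⟩
  · exact hnx1 _ _
  · exact hnx2 _ _
  · exact hnx3 (seq n) (Equiv.intEquivNat.symm n)
  · obtain ⟨l, hl, h⟩ := hnx4 (seq (Equiv.intEquivNat z)) z
    refine ⟨l, hl, Equiv.intEquivNat z + 1, ?_⟩
    have h2 : seq (Equiv.intEquivNat z + 1) = nx (seq (Equiv.intEquivNat z)) z := by
      rw [hseq, Equiv.symm_apply_apply]
    show z - l ∈ (seq (Equiv.intEquivNat z + 1)).1.2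
    rw [h2]
    exact h

end Pool.Agent.X231.CS
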