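import Mathlib
import Pool.Agent.X231.CS.Sys

set_option autoImplicit false

/-!
# Complementary spectra
-/

namespace Pool.Agent.X231.CS

open Finset Filter Topology MeasureTheory
open scoped Real ComplexConjugate
open Pool.Agent.X212.Spec (ex ex_add ex_zero ex_int ex_add_int conj_ex norm_ex ex_sub continuous_ex
  F F_zero norm_F_le IsSpectrum isSpectrum_of)

variable {N : ℕ → ℕ}

theorem pn_strictMono : StrictMono pn := by
  intro a b h
  unfold pn
  omega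

theorem ev_strictMono : StrictMono (fun i : ℕ => 2 * i) := by
  intro a b h
  simp only
  omega

theorem OM_ON {d : ℤ} (h1 : OM N d) (h2 : ON N d) : False := by
  obtain ⟨i, hi1, hi2⟩ := h1
  obtain ⟨j, hj1, hj2⟩ := h2
  rcases le_or_gt i j with h | h
  · exact hi2 ((D_dvdZ N (by omega)).trans hj1)
  · exact hj2 ((D_dvdZ N (by omega)).trans hi1)

section Strichartz

variable {Λ : Set ℤ} {J : ℕ → ℕ} {S : ℕ → Finset ℤ} {ν : Measure ℝ} [IsProbabilityMeasure ν]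

theorem sum_le_one (hN : ∀ i, 2 ≤ N i) (hν : ∀ ξ, Tendsto (fun n => P N pn n ξ) atTop (𝓝 (F ν ξ)))
    (hS : ∀ n, Sys N Λ (J n) (S n)) (ξ : ℝ) (n : ℕ) :
    ∑ s ∈ S n, ‖F ν (ξ - s)‖ ^ 2 ≤ 1 := by
  rw [← (hS n).parseval ξ]
  refine sum_le_sum fun s _ => ?_
  exact pow_le_pow_left₀ (norm_nonneg _) (G_le hN hν (J n) _) 2

theorem pars (hN : ∀ i, 2 ≤ N i) (hν : ∀ ξ, Tendsto (fun n => P N pn n ξ) atTop (𝓝 (F ν ξ)))
    (hJ : StrictMono J) (hSm : Monotone S) (hS : ∀ n, Sys N Λ (J n) (S n))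
    (hsm : ∀ n, ∀ s ∈ S (n + 1), 2 * |s| ≤ D N (2 * J (n + 1))) (ξ ε : ℝ) (hε : 0 < ε) :
    ∃ n, 1 - ε ≤ ∑ s ∈ S n, ‖F ν (ξ - s)‖ ^ 2 := by
  classical
  obtain ⟨a, ha⟩ : ∃ a : ℕ → ℝ, ∀ n, a n = ∑ s ∈ S n, ‖F ν (ξ - s)‖ ^ 2 := ⟨_, fun _ => rfl⟩
  have hmono : Monotone a := by
    intro m n h
    rw [ha, ha]
    exact sum_le_sum_of_subset_of_nonneg (hSm h) fun _ _ _ => by positivity
  have hbdd : BddAbove (Set.range a) := by
    refine ⟨1, ?_⟩
    rintro _ ⟨n, rfl⟩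
    rw [ha]
    exact sum_le_one hN hν hS ξ n
  have hlim := tendsto_atTop_ciSup hmono hbdd
  obtain ⟨n₀, hn₀⟩ : ∃ n₀, (⨆ n, a n) - ε / 5 < a n₀ := by
    have h := hlim.eventually (lt_mem_nhds (by linarith : (⨆ n, a n) - ε / 5 < ⨆ n, a n))
    exact h.exists
  have hub : ∀ n, a n ≤ a n₀ + ε / 5 := by
    intro n
    have := le_ciSup hbdd n
    linarith
  refine ⟨n₀, ?_⟩
  rw [← ha]
  -- convergence on `S n₀`
  have hconv : Tendsto (fun n => ∑ s ∈ S n₀, ‖P N pn (J n) (ξ - s)‖ ^ 2) atTop (𝓝 (a n₀)) := by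
    rw [ha]
    refine tendsto_finsetSum _ fun s _ => ?_
    exact (((hν (ξ - s)).comp hJ.tendsto_atTop).norm).pow 2
  obtain ⟨J₀, hJ₀⟩ := exists_D hN pn_strictMono (12 * |ξ|)
  have hev := hconv.eventually (gt_mem_nhds (by linarith : a n₀ < a n₀ + ε / 5))
  obtain ⟨n, hn1, hn2⟩ := (hev.and (eventually_ge_atTop (max (n₀ + 1) (J₀ + 1)))).exists
  have hn3 : n₀ ≤ n := by
    have := le_trans (le_max_left _ _) hn2
    omega
  have hn4 : J₀ + 1 ≤ n := le_trans (le_max_right _ _) hn2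
  have h1 := (hS n).parseval ξ
  rw [← sum_sdiff (hSm hn3)] at h1
  have h2 : ∑ s ∈ S n \ S n₀, ‖P N pn (J n) (ξ - s)‖ ^ 2 ≤
      4 * ∑ s ∈ S n \ S n₀, ‖F ν (ξ - s)‖ ^ 2 := by
    rw [mul_sum]
    refine sum_le_sum fun s hs => ?_
    have hs1 : s ∈ S n := (mem_sdiff.1 hs).1
    obtain ⟨k, rfl⟩ : ∃ k, n = k + 1 := ⟨n - 1, by omega⟩
    have h3 := hsm k s hs1
    have hD1 : (0 : ℝ) < D N (pn (J (k + 1))) := by exact_mod_cast D_pos N hN _
    have h4 : (12 : ℝ) * |ξ| ≤ D N (pn (J (k + 1))) :=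
      hJ₀ _ (by have := hJ.id_le (k + 1); simp only [id_eq] at this; omega)
    have h5 : (2 : ℝ) * |(s : ℝ)| ≤ D N (2 * J (k + 1)) := by exact_mod_cast h3
    have h6 : (2 : ℝ) * D N (2 * J (k + 1)) ≤ D N (pn (J (k + 1))) := by
      unfold pn
      rw [D_succ]
      push_cast
      have h7 : (2 : ℝ) ≤ N (2 * J (k + 1)) := by exact_mod_cast hN _
      have h8 : (0 : ℝ) ≤ D N (2 * J (k + 1)) := by positivity
      nlinarith
    have h7 : |ξ - s| ≤ D N (pn (J (k + 1))) / 3 := by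
      have := abs_sub ξ (s : ℝ)
      linarith
    have h8 := G_ge hN pn_strictMono hν (J (k + 1)) (ξ - s) (by linarith)
    have h9 : (1 : ℝ) / 2 ≤ Real.cos (π * (|ξ - s| / D N (pn (J (k + 1))))) := by
      rw [← Real.cos_pi_div_three]
      apply Real.cos_le_cos_of_nonneg_of_le_pi
      · positivity
      · have := Real.pi_pos
        linarith
      · have h10 : |ξ - s| / D N (pn (J (k + 1))) ≤ 1 / 3 := by
          rw [div_le_iff₀ hD1]
          linarith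
        have := Real.pi_pos
        nlinarith
    have h10 : ‖P N pn (J (k + 1)) (ξ - s)‖ ≤ 2 * ‖F ν (ξ - s)‖ := by
      have h11 := norm_nonneg (P N pn (J (k + 1)) (ξ - s))
      nlinarith
    calc ‖P N pn (J (k + 1)) (ξ - s)‖ ^ 2 ≤ (2 * ‖F ν (ξ - s)‖) ^ 2 :=
          pow_le_pow_left₀ (norm_nonneg _) h10 2
      _ = 4 * ‖F ν (ξ - s)‖ ^ 2 := by ring
  have h3 : ∑ s ∈ S n \ S n₀, ‖F ν (ξ - s)‖ ^ 2 = a n - a n₀ := by
    rw [ha, ha, ← sum_sdiff (hSm hn3)]
    ring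
  rw [h3] at h2
  have h4 := hub n
  linarith

end Strichartz

/-- **Complementary spectra.** -/
theorem main (hN : ∀ i, 2 ≤ N i) (μ ν : Measure ℝ) [IsProbabilityMeasure μ]
    [IsProbabilityMeasure ν]
    (hμ : ∀ ξ, Tendsto (fun n => P N (fun i => 2 * i) n ξ) atTop (𝓝 (F μ ξ)))
    (hν : ∀ ξ, Tendsto (fun n => P N pn n ξ) atTop (𝓝 (F ν ξ)))
    (A : Set ℝ) (hA : IsSpectrum μ A) :
    ∃ B : Set ℝ, B.Countable ∧ IsSpectrum ν B ∧ (∀ a ∈ A, ∀ b ∈ B, ∃ z : ℤ, a + b = z) ∧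
      ∀ z : ℤ, ∃! q : ℝ × ℝ, q.1 ∈ A ∧ q.2 ∈ B ∧ q.1 + q.2 = z := by
  classical
  have hmul : ∀ a b x : ℝ, ex (a * x) * conj (ex (b * x)) = ex ((a - b) * x) := by
    intro a b x
    rw [sub_mul, ex_sub]
  have hmem : ∀ ξ : ℝ, MemLp (fun x => ex (ξ * x)) 2 μ := by
    intro ξ
    refine MemLp.of_bound
      ((continuous_ex.comp (continuous_const.mul continuous_id)).aestronglyMeasurable) 1 ?_
    exact Eventually.of_forall (fun x => by simp [norm_ex])
  have hnot : ∀ ξ : ℝ, ¬ ∀ l ∈ A, F μ (ξ - l) = 0 := by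
    intro ξ h
    have h1 := hA.2 (fun x => ex (ξ * x)) (hmem ξ) (by
      intro l hl
      simp only [hmul]
      exact h l hl)
    have h2 : ∀ᵐ _x ∂μ, False := by
      filter_upwards [h1] with x hx
      have h3 := norm_ex (ξ * x)
      simp only [Pi.zero_apply] at hx
      rw [hx, norm_zero] at h3
      exact zero_ne_one h3
    rw [eventually_false_iff_eq_bot, ae_eq_bot] at h2
    exact (IsProbabilityMeasure.ne_zero μ) h2
  have hor : ∀ l ∈ A, ∀ l' ∈ A, l ≠ l' → F μ (l - l') = 0 := by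
    intro l hl l' hl' hne
    have := hA.1 l hl l' hl' hne
    simp only [hmul] at this
    exact this
  obtain ⟨a₀, ha₀⟩ : A.Nonempty := by
    by_contra h
    rw [Set.not_nonempty_iff_eq_empty] at h
    apply hnot 0
    intro l hl
    rw [h] at hl
    exact absurd hl (Set.notMem_empty l)
  have hint : ∀ l ∈ A, ∃ n : ℤ, l = a₀ + n := by
    intro l hl
    by_cases h : l = a₀
    · exact ⟨0, by rw [h]; simp⟩
    · obtain ⟨n, hn, -⟩ := G_zero hN ev_strictMono hμ _ (hor l hl a₀ ha₀ h)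
      exact ⟨n, by linarith⟩
  obtain ⟨Λ, hΛ⟩ : ∃ Λ : Set ℤ, ∀ n, n ∈ Λ ↔ a₀ + (n : ℝ) ∈ A := ⟨{n | a₀ + (n : ℝ) ∈ A}, fun _ => Iff.rfl⟩
  have horth : ∀ a ∈ Λ, ∀ b ∈ Λ, a ≠ b → OM N (a - b) := by
    intro a ha b hb hne
    rw [hΛ] at ha hb
    have h1 := hor _ ha _ hb (by
      intro h
      apply hne
      have : (a : ℝ) = b := by linarith
      exact_mod_cast this)
    obtain ⟨n, hn, i, hi1, hi2⟩ := G_zero hN ev_strictMono hμ _ h1
    have h2 : a - b = n := by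
      have : ((a - b : ℤ) : ℝ) = n := by
        rw [← hn]
        push_cast
        ring
      exact_mod_cast this
    rw [h2]
    exact ⟨i, hi1, hi2⟩
  have hmax : ∀ w : ℤ, ¬ ∀ l ∈ Λ, OM N (w - l) := by
    intro w h
    apply hnot (a₀ + w)
    intro l hl
    obtain ⟨n, rfl⟩ := hint l hl
    obtain ⟨i, hi1, hi2⟩ := h n ((hΛ n).2 hl)
    have h1 : a₀ + (w : ℝ) - (a₀ + n) = ((w - n : ℤ) : ℝ) := by
      push_cast
      ring
    rw [h1]
    exact G_int hN hμ _ i hi1 hi2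
  have hne : Λ.Nonempty := ⟨0, by rw [hΛ]; simpa using ha₀⟩
  obtain ⟨J, S, hJ, hSm, hS, hsm, hcov⟩ := construct hN hne horth hmax
  have hON : ∀ m n, ∀ s ∈ S m, ∀ t ∈ S n, s ≠ t → ON N (s - t) := by
    intro m n s hs t ht hst
    obtain ⟨i, -, h1, h2⟩ := (hS (max m n)).orth s (hSm (le_max_left _ _) hs) t
      (hSm (le_max_right _ _) ht) hst
    exact ⟨i, h1, h2⟩
  refine ⟨{b | ∃ n, ∃ s ∈ S n, b = -a₀ + (s : ℝ)}, ?_, ?_, ?_, ?_⟩
  · refine (Set.countable_range (fun s : ℤ => -a₀ + (s : ℝ))).mono ?_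
    rintro b ⟨n, s, -, rfl⟩
    exact ⟨s, rfl⟩
  · apply isSpectrum_of
    · rintro _ ⟨m, s, hs, rfl⟩ _ ⟨n, t, ht, rfl⟩ hst
      obtain ⟨i, hi1, hi2⟩ := hON m n s hs t ht (by
        rintro rfl
        exact hst rfl)
      have h1 : -a₀ + (s : ℝ) - (-a₀ + t) = ((s - t : ℤ) : ℝ) := by
        push_cast
        ring
      rw [h1]
      exact G_int hN hν _ i hi1 hi2
    · intro ξ ε hε
      obtain ⟨n, hn⟩ := pars hN hν hJ hSm hS hsm (ξ + a₀) ε hε
      refine ⟨(S n).image (fun s : ℤ => -a₀ + (s : ℝ)), ?_, ?_⟩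
      · intro l hl
        rw [mem_image] at hl
        obtain ⟨s, hs, rfl⟩ := hl
        exact ⟨n, s, hs, rfl⟩
      · rw [sum_image (by
          intro s _ t _ h
          simp only at h
          have : (s : ℝ) = t := by linarith
          exact_mod_cast this)]
        refine hn.trans (le_of_eq (sum_congr rfl fun s _ => ?_))
        congr 3
        ring
  · rintro a ha _ ⟨n, s, -, rfl⟩
    obtain ⟨k, rfl⟩ := hint a ha
    exact ⟨k + s, by push_cast; ring⟩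
  · intro z
    obtain ⟨l, hl, n, hn⟩ := hcov z
    refine ⟨(a₀ + l, -a₀ + ((z - l : ℤ) : ℝ)), ⟨(hΛ l).1 hl, ⟨n, z - l, hn, rfl⟩, ?_⟩, ?_⟩
    · simp only
      push_cast
      ring
    · rintro ⟨a, b⟩ ⟨ha, ⟨n', s, hs, hb⟩, hab⟩
      simp only at ha hb hab
      subst hb
      obtain ⟨k, rfl⟩ := hint a ha
      have hk := (hΛ k).2 ha
      have h1 : k + s = z := by
        have : ((k + s : ℤ) : ℝ) = z := by
          rw [← hab]
          push_cast
          ring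
        exact_mod_cast this
      by_cases hkl : k = l
      · subst hkl
        have h2 : s = z - k := by linarith
        rw [h2]
      · exfalso
        have h2 : OM N (k - l) := horth k hk l hl hkl
        have h3 : ON N ((z - l) - s) := hON n n' _ hn s hs (by
          intro h
          apply hkl
          linarith)
        have h4 : (z - l) - s = k - l := by linarith
        rw [h4] at h3
        exact OM_ON h2 h3

end Pool.Agent.X231.CS
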